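import Pool.Agent.P.MP_c72435_an.OddB

set_option autoImplicit false

namespace Pool.Agent.Results.MP_c72435_an.OddFail

open Pool.Agent.P.MP_c72435_an Pool.Agent.P.MP_c72435_an.Odd

/-- For every odd `n ≥ 3` some normalised univalent function violates the inequality at `n`. -/
theorem result (n : ℕ) (hn : Odd n) (h3 : 3 ≤ n) :
    ∃ f : ℂ → ℂ, DifferentiableOn ℂ f (Metric.ball (0 : ℂ) 1) ∧
      Set.InjOn f (Metric.ball (0 : ℂ) 1) ∧ f 0 = 0 ∧ deriv f 0 = 1 ∧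
      ∑ k ∈ Finset.range n,
          ‖iteratedDeriv (2 * k + 1) f 0 / ((Nat.factorial (2 * k + 1) : ℕ) : ℂ)‖ <
        ‖iteratedDeriv n f 0 / ((Nat.factorial n : ℕ) : ℂ)‖ ^ 2 := by
  obtain ⟨t, ht, h1, h2⟩ := fail hn h3
  have hd := hh_diff ht
  have hc : ∀ m : ℕ, m ≠ 0 → tc (fun z => (tc (hh t) 1)⁻¹ * (hh t z + -hh t 0)) m
      = (tc (hh t) 1)⁻¹ * tc (hh t) m := fun m hm => by
    rw [tc_const_mul, tc_add (an_of_diff hd) analyticAt_const, tc_const _ hm, add_zero]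
  refine ⟨fun z => (tc (hh t) 1)⁻¹ * (hh t z + -hh t 0), by fun_prop, fun z hz w hw h =>
    hh_inj ht hz hw (add_right_cancel (mul_left_cancel₀ (inv_ne_zero h1) h)), by simp, ?_, ?_⟩
  · rw [← tc_one, hc 1 one_ne_zero, inv_mul_cancel₀ h1]
  · change ∑ k ∈ Finset.range n, ‖tc _ (2 * k + 1)‖ < ‖tc _ n‖ ^ 2
    have h0 : 0 < ‖tc (hh t) 1‖ := norm_pos_iff.2 h1
    rw [hc n (by omega), Finset.sum_congr rfl fun k _ => congrArg norm (hc _ (by omega))]
    simp only [norm_mul, norm_inv, ← Finset.mul_sum]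
    rw [mul_pow, inv_pow, inv_mul_eq_div, inv_mul_eq_div, div_lt_div_iff₀ h0 (pow_pos h0 2)]
    nlinarith [mul_lt_mul_of_pos_left h2 h0]

end Pool.Agent.Results.MP_c72435_an.OddFail
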